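import Pool.Agent.Lib_helper92.RC.Ser

/-!
# Project A1, block LOG, part A: the log det integral of a pair
-/

open scoped BigOperators ComplexOrder Kronecker MatrixOrder Topology
open MeasureTheory Set Matrix Filter

namespace Pool.Agent.A1.LOG

open Pool.Agent.RC Pool.Agent.RC.SER Pool.Agent.RC.DEC

variable {ι κ : Type} [Fintype ι] [DecidableEq ι] [Fintype κ] [DecidableEq κ]

/-- the sum of logarithms of a pair at `r` -/
noncomputable def lgs {A D : Matrix ι ι ℂ} (hA : A.IsHermitian) (hp : (A + D).IsHermitian)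
    (hq : (A - D).IsHermitian) (r : ℝ) : ℝ :=
  2 * ∑ i, Real.log (hA.eigenvalues i + r) - ∑ i, Real.log (hp.eigenvalues i + r)
    - ∑ i, Real.log (hq.eigenvalues i + r)

theorem lgs_int (α : ℝ) (h0 : 0 < α) (h2 : α < 2) (h1 : α ≠ 1) {A D : Matrix ι ι ℂ}
    (h : IsPair A D) (hA : A.IsHermitian) (hp : (A + D).IsHermitian)
    (hq : (A - D).IsHermitian) :
    IntegrableOn (fun r : ℝ => r ^ (α - 1) * lgs hA hp hq r) (Ioi 0) := by
  obtain ⟨ε, C, -, hint, -⟩ := exists_phi h0 h2 h1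
  set φ : ℝ → ℝ := fun t => Real.log (1 + t) - ε * t with hφ
  have hφ0 : φ 0 = 0 := by simp [hφ]
  have sc := fun x (hx : 0 ≤ x) => scal φ hφ0 h0 hint hx
  have ha0 : ∀ i, 0 < hA.eigenvalues i := fun i => h.pos.eigenvalues_pos i
  have hp0 : ∀ i, 0 ≤ hp.eigenvalues i := fun i => h.add.eigenvalues_nonneg i
  have hq0 : ∀ i, 0 ≤ hq.eigenvalues i := fun i => h.sub.eigenvalues_nonneg i
  set L : ℝ → ℝ := fun r => 2 * ∑ i, r ^ (α - 1) * φ (hA.eigenvalues i / r) -
    ∑ i, r ^ (α - 1) * φ (hp.eigenvalues i / r) - ∑ i, r ^ (α - 1) * φ (hq.eigenvalues i / r)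
    with hL
  have iA : IntegrableOn (fun r : ℝ => ∑ i, r ^ (α - 1) * φ (hA.eigenvalues i / r)) (Ioi 0) :=
    integrable_finsetSum _ fun i _ => (sc _ (ha0 i).le).1
  have iP : IntegrableOn (fun r : ℝ => ∑ i, r ^ (α - 1) * φ (hp.eigenvalues i / r)) (Ioi 0) :=
    integrable_finsetSum _ fun i _ => (sc _ (hp0 i)).1
  have iQ : IntegrableOn (fun r : ℝ => ∑ i, r ^ (α - 1) * φ (hq.eigenvalues i / r)) (Ioi 0) :=
    integrable_finsetSum _ fun i _ => (sc _ (hq0 i)).1
  have iL : IntegrableOn L (Ioi 0) := ((iA.const_mul 2).sub iP).sub iQ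
  have htr : ∑ i, hp.eigenvalues i + ∑ i, hq.eigenvalues i = 2 * ∑ i, hA.eigenvalues i := by
    have t1 := hA.trace_eq_sum_eigenvalues
    have t2 := hp.trace_eq_sum_eigenvalues
    have t3 := hq.trace_eq_sum_eigenvalues
    rw [Matrix.trace_add, t1] at t2
    rw [Matrix.trace_sub, t1] at t3
    have : ((∑ i, hp.eigenvalues i + ∑ i, hq.eigenvalues i : ℝ) : ℂ) =
        ((2 * ∑ i, hA.eigenvalues i : ℝ) : ℂ) := by
      push_cast
      simp only [RCLike.ofReal_eq_complex_ofReal] at t2 t3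
      rw [← t2, ← t3]
      ring
    exact_mod_cast this
  refine iL.congr_fun ?_ measurableSet_Ioi
  intro r hr
  have hr0 : 0 < r := hr
  have e2 : ∀ x : ℝ, 0 ≤ x → φ (x / r) = Real.log (x + r) - Real.log r - ε * x / r := by
    intro x hx
    simp only [hφ]
    rw [show 1 + x / r = (x + r) / r by field_simp; ring,
      Real.log_div (by positivity) hr0.ne']
    ring
  have f1 : ∑ i, r ^ (α - 1) * φ (hA.eigenvalues i / r) = ∑ i, r ^ (α - 1) *
      (Real.log (hA.eigenvalues i + r) - Real.log r - ε * hA.eigenvalues i / r) :=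
    Finset.sum_congr rfl fun i _ => by rw [e2 _ (ha0 i).le]
  have f2 : ∑ i, r ^ (α - 1) * φ (hp.eigenvalues i / r) = ∑ i, r ^ (α - 1) *
      (Real.log (hp.eigenvalues i + r) - Real.log r - ε * hp.eigenvalues i / r) :=
    Finset.sum_congr rfl fun i _ => by rw [e2 _ (hp0 i)]
  have f3 : ∑ i, r ^ (α - 1) * φ (hq.eigenvalues i / r) = ∑ i, r ^ (α - 1) *
      (Real.log (hq.eigenvalues i + r) - Real.log r - ε * hq.eigenvalues i / r) :=
    Finset.sum_congr rfl fun i _ => by rw [e2 _ (hq0 i)]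
  simp only [hL, lgs]
  rw [f1, f2, f3]
  simp only [← Finset.mul_sum, Finset.sum_sub_distrib, ← Finset.sum_div]
  have : ε * (∑ i, hp.eigenvalues i) / r + ε * (∑ i, hq.eigenvalues i) / r =
      2 * (ε * (∑ i, hA.eigenvalues i) / r) := by
    rw [← add_div, ← mul_add, htr]; ring
  linear_combination (r ^ (α - 1)) * this

theorem lgs_hasSum (α : ℝ) (h0 : 0 < α) (h2 : α < 2) (h1 : α ≠ 1) {A D : Matrix ι ι ℂ}
    (h : IsPair A D) (hA : A.IsHermitian) (hp : (A + D).IsHermitian)
    (hq : (A - D).IsHermitian) :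
    HasSum (fun m : ℕ => In α A D (2 * (m + 1)) / ((m : ℝ) + 1))
      (∫ r in Ioi (0 : ℝ), r ^ (α - 1) * lgs hA hp hq r) := by
  have hsum : ∀ r ∈ Ioi (0 : ℝ), HasSum (fun m : ℕ =>
      r ^ (α - 1) * tn A D (2 * (m + 1)) r / ((m : ℝ) + 1)) (r ^ (α - 1) * lgs hA hp hq r) := by
    intro r hr
    have hr0 : 0 < r := hr
    refine ((hasSum_tn h hA hp hq hr0).mul_left (r ^ (α - 1))).congr_fun ?_
    intro m
    ring
  have key := hasSum_integral_of_dominated_convergence (μ := volume.restrict (Ioi (0 : ℝ)))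
    (F := fun (m : ℕ) r => r ^ (α - 1) * tn A D (2 * (m + 1)) r / ((m : ℝ) + 1))
    (f := fun r => r ^ (α - 1) * lgs hA hp hq r)
    (fun (m : ℕ) r => r ^ (α - 1) * tn A D (2 * (m + 1)) r / ((m : ℝ) + 1))
    (fun m => (((continuousOn_F h.pos α (2 * (m + 1))).div_const _).aestronglyMeasurable
      measurableSet_Ioi))
    (fun m => by
      rw [ae_restrict_iff' measurableSet_Ioi]
      refine Eventually.of_forall fun r hr => ?_
      have hr0 : 0 < r := hr
      have : 0 ≤ tn A D (2 * (m + 1)) r := tn_nonneg' h hr0.le (even_two_mul _)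
      rw [Real.norm_eq_abs, abs_of_nonneg]
      positivity)
    (by
      rw [ae_restrict_iff' measurableSet_Ioi]
      exact Eventually.of_forall fun r hr => (hsum r hr).summable)
    (by
      refine (lgs_int α h0 h2 h1 h hA hp hq).congr ?_
      rw [EventuallyEq, ae_restrict_iff' measurableSet_Ioi]
      exact Eventually.of_forall fun r hr => (hsum r hr).tsum_eq.symm)
    (by
      rw [ae_restrict_iff' measurableSet_Ioi]
      exact Eventually.of_forall fun r hr => hsum r hr)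
  refine key.congr_fun ?_
  intro m
  unfold In
  rw [integral_div]

/-- `log det (1 + e M)` through the eigenvalues -/
theorem log_det_shift {M : Matrix ι ι ℂ} (hM : M.PosSemidef) (hH : M.IsHermitian) {e : ℝ}
    (he : 0 < e) : Real.log ((1 + (e : ℂ) • M).det).re =
      Fintype.card ι * Real.log e + ∑ i, Real.log (hH.eigenvalues i + e⁻¹) := by
  have hp0 : ∀ i, 0 < hH.eigenvalues i + e⁻¹ := fun i => by
    have := hM.eigenvalues_nonneg i
    have h3 : 0 < e⁻¹ := inv_pos.2 he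
    linarith
  have he' : (e : ℂ) ≠ 0 := by exact_mod_cast he.ne'
  have h1 : (1 : Matrix ι ι ℂ) + (e : ℂ) • M = (e : ℂ) • Bm M e⁻¹ := by
    unfold Bm
    rw [smul_add, smul_smul, Complex.ofReal_inv, mul_inv_cancel₀ he', one_smul, add_comm]
  rw [h1, Matrix.det_smul, det_shift hH, ← Complex.ofReal_pow, ← Complex.ofReal_mul,
    Complex.ofReal_re, Real.log_mul (by positivity) (Finset.prod_pos fun i _ => hp0 i).ne',
    Real.log_pow, Real.log_prod fun i _ => (hp0 i).ne']

/-- `2 log det (1 + e A) - log det (1 + e (A + D)) - log det (1 + e (A - D))` -/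
noncomputable def LL (A D : Matrix ι ι ℂ) (e : ℝ) : ℝ :=
  2 * Real.log ((1 + (e : ℂ) • A).det).re - Real.log ((1 + (e : ℂ) • (A + D)).det).re -
    Real.log ((1 + (e : ℂ) • (A - D)).det).re

theorem LL_eq {A D : Matrix ι ι ℂ} (h : IsPair A D) (hA : A.IsHermitian)
    (hp : (A + D).IsHermitian) (hq : (A - D).IsHermitian) {e : ℝ} (he : 0 < e) :
    LL A D e = lgs hA hp hq e⁻¹ := by
  unfold LL lgs
  rw [log_det_shift h.pos.posSemidef hA he, log_det_shift h.add hp he,
    log_det_shift h.sub hq he]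
  ring

/-- (7.2), first part -/
theorem LL_integrable (α : ℝ) (h0 : 0 < α) (h2 : α < 2) (h1 : α ≠ 1) {A D : Matrix ι ι ℂ}
    (h : IsPair A D) : IntegrableOn (fun e : ℝ => e ^ (-1 - α) * LL A D e) (Ioi 0) := by
  have hA := h.pos.isHermitian
  have hp := h.add.isHermitian
  have hq := h.sub.isHermitian
  have key := (integrableOn_Ioi_comp_rpow_iff' (fun r : ℝ => r ^ (α - 1) * lgs hA hp hq r)
    (p := -1) (by norm_num)).2 (lgs_int α h0 h2 h1 h hA hp hq)
  refine key.congr_fun ?_ measurableSet_Ioi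
  intro e he
  have he0 : 0 < e := he
  beta_reduce
  rw [LL_eq h hA hp hq he0, smul_eq_mul, ← mul_assoc, ← Real.rpow_mul he0.le,
    ← Real.rpow_add he0, Real.rpow_neg_one]
  congr 2
  ring

/-- (7.2), first part: the log det integral is the sum of the `In` -/
theorem LL_hasSum (α : ℝ) (h0 : 0 < α) (h2 : α < 2) (h1 : α ≠ 1) {A D : Matrix ι ι ℂ}
    (h : IsPair A D) : HasSum (fun m : ℕ => In α A D (2 * (m + 1)) / ((m : ℝ) + 1))
      (∫ e in Ioi (0 : ℝ), e ^ (-1 - α) * LL A D e) := by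
  have hA := h.pos.isHermitian
  have hp := h.add.isHermitian
  have hq := h.sub.isHermitian
  have key := integral_comp_rpow_Ioi (fun r : ℝ => r ^ (α - 1) * lgs hA hp hq r)
    (p := -1) (by norm_num)
  have e1 : ∫ e in Ioi (0 : ℝ), e ^ (-1 - α) * LL A D e =
      ∫ r in Ioi (0 : ℝ), r ^ (α - 1) * lgs hA hp hq r := by
    rw [← key]
    apply setIntegral_congr_fun measurableSet_Ioi
    intro e he
    have he0 : 0 < e := he
    beta_reduce
    rw [LL_eq h hA hp hq he0, smul_eq_mul, abs_neg, abs_one, one_mul, ← mul_assoc,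
      ← Real.rpow_mul he0.le, ← Real.rpow_add he0, Real.rpow_neg_one]
    congr 2
    ring
  rw [e1]
  exact lgs_hasSum α h0 h2 h1 h hA hp hq

end Pool.Agent.A1.LOG
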