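import Pool.Agent.Lib_helper95.RC.Main02
import Pool.Agent.Lib_helper92.RC.Trf

/-!
# Project A1, block LOG, part C: `In` of `(A₁ ⊗ A₂, D₁ ⊗ A₂)`
-/

open scoped BigOperators ComplexOrder Kronecker MatrixOrder Topology
open MeasureTheory Set Matrix Filter

namespace Pool.Agent.A1.LOG

open Pool.Agent.RC

variable {ι κ : Type} [Fintype ι] [DecidableEq ι] [Fintype κ] [DecidableEq κ]

theorem kron_dg (X : Matrix ι ι ℂ) (b : κ → ℝ) :
    X ⊗ₖ dg b = Matrix.blockDiagonal fun k => (b k : ℂ) • X := by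
  unfold dg
  rw [Matrix.kronecker_diagonal]
  congr 1
  funext k
  ext i j
  simp [mul_comm]

theorem inv_blockDiagonal {M N : κ → Matrix ι ι ℂ} (h : ∀ k, M k * N k = 1) :
    (Matrix.blockDiagonal M)⁻¹ = Matrix.blockDiagonal N := by
  apply Matrix.inv_eq_right_inv
  rw [← Matrix.blockDiagonal_mul]
  have : (fun k => M k * N k) = 1 := by
    funext k
    rw [h k]
    rfl
  rw [this, Matrix.blockDiagonal_one]

theorem trace_blockDiagonal' (M : κ → Matrix ι ι ℂ) :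
    (Matrix.blockDiagonal M).trace = ∑ k, (M k).trace := by
  rw [Matrix.trace_blockDiagonal]

/-- `(b A + r)⁻¹ (b D) = (A + r/b)⁻¹ D` -/
theorem res_block (A D : Matrix ι ι ℂ) (hA : A.PosDef) {b : ℝ} (hb : 0 < b) {r : ℝ} (hr : 0 < r) :
    ((b : ℂ) • A + (r : ℂ) • (1 : Matrix ι ι ℂ)) * ((b : ℂ)⁻¹ • Res A (r / b)) = 1 := by
  have hb' : (b : ℂ) ≠ 0 := by exact_mod_cast hb.ne'
  have h1 := DEC.mul_res hA (div_pos hr hb).le
  have h2 : (b : ℂ) • A + (r : ℂ) • (1 : Matrix ι ι ℂ) = (b : ℂ) • DEC.Bm A (r / b) := by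
    unfold DEC.Bm
    rw [smul_add, smul_smul]
    congr 2
    push_cast
    field_simp
  rw [h2, Matrix.smul_mul, Matrix.mul_smul, h1, smul_smul, mul_inv_cancel₀ hb', one_smul]

theorem tn_kron_dg (A D : Matrix ι ι ℂ) (hA : A.PosDef) (b : κ → ℝ) (hb : ∀ k, 0 < b k) (n : ℕ)
    {r : ℝ} (hr : 0 < r) : tn (A ⊗ₖ dg b) (D ⊗ₖ dg b) n r = ∑ k, tn A D n (r / b k) := by
  have h1 : A ⊗ₖ dg b + (r : ℂ) • (1 : Matrix (ι × κ) (ι × κ) ℂ) =
      Matrix.blockDiagonal fun k => (b k : ℂ) • A + (r : ℂ) • (1 : Matrix ι ι ℂ) := by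
    rw [kron_dg]
    have h2 : (r : ℂ) • (1 : Matrix (ι × κ) (ι × κ) ℂ) =
        Matrix.blockDiagonal ((r : ℂ) • (1 : κ → Matrix ι ι ℂ)) := by
      rw [Matrix.blockDiagonal_smul, Matrix.blockDiagonal_one]
    rw [h2, ← Matrix.blockDiagonal_add]
    rfl
  have h3 : Res (A ⊗ₖ dg b) r =
      Matrix.blockDiagonal fun k => ((b k : ℂ)⁻¹ • Res A (r / b k)) := by
    unfold Res
    rw [h1]
    exact inv_blockDiagonal fun k => res_block A D hA (hb k) hr
  have h4 : Res (A ⊗ₖ dg b) r * (D ⊗ₖ dg b) =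
      Matrix.blockDiagonal fun k => Res A (r / b k) * D := by
    rw [h3, kron_dg D b, ← Matrix.blockDiagonal_mul]
    congr 1
    funext k
    have hb' : (b k : ℂ) ≠ 0 := by exact_mod_cast (hb k).ne'
    rw [Matrix.smul_mul, Matrix.mul_smul, smul_smul, inv_mul_cancel₀ hb', one_smul]
  unfold tn
  rw [h4, ← Matrix.blockDiagonal_pow, Matrix.trace_blockDiagonal, Complex.re_sum]
  rfl

theorem In_kron_dg (α : ℝ) (A D : Matrix ι ι ℂ) (hA : A.PosDef) (b : κ → ℝ) (hb : ∀ k, 0 < b k)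
    (n : ℕ) (h0 : 0 < α) (hα : α < n) :
    In α (A ⊗ₖ dg b) (D ⊗ₖ dg b) n = (∑ k, b k ^ α) * In α A D n := by
  have hsc : ∀ k, ∫ r in Ioi (0 : ℝ), r ^ (α - 1) * tn A D n (r / b k) = b k ^ α * In α A D n := by
    intro k
    rw [integral_scale α (b k) (fun r => tn A D n (r / b k)) (hb k)]
    unfold In
    congr 1
    apply setIntegral_congr_fun measurableSet_Ioi
    intro t _
    show t ^ (α - 1) * tn A D n (b k * t / b k) = t ^ (α - 1) * tn A D n t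
    rw [mul_div_cancel_left₀ _ (hb k).ne']
  have hint : ∀ k, IntegrableOn (fun r => r ^ (α - 1) * tn A D n (r / b k)) (Ioi 0) := by
    intro k
    have h1 := integrableOn_tn α A D hA n h0 hα
    have h2 : IntegrableOn (fun u : ℝ => (b k * u) ^ (α - 1) * tn A D n (b k * u / b k))
        (Ioi 0) := by
      apply IntegrableOn.congr_fun (h1.const_mul (b k ^ (α - 1))) _ measurableSet_Ioi
      intro u hu
      have hu0 : (0 : ℝ) < u := hu
      show b k ^ (α - 1) * (u ^ (α - 1) * tn A D n u) = _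
      beta_reduce
      rw [mul_div_cancel_left₀ _ (hb k).ne', Real.mul_rpow (hb k).le hu0.le]
      ring
    have h3 := (integrableOn_Ioi_comp_mul_left_iff
      (fun r : ℝ => r ^ (α - 1) * tn A D n (r / b k)) 0 (hb k)).1 h2
    simpa using h3
  have h5 : In α (A ⊗ₖ dg b) (D ⊗ₖ dg b) n =
      ∫ r in Ioi (0 : ℝ), ∑ k, r ^ (α - 1) * tn A D n (r / b k) := by
    unfold In
    apply setIntegral_congr_fun measurableSet_Ioi
    intro r hr
    have hr0 : (0 : ℝ) < r := hr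
    beta_reduce
    rw [tn_kron_dg A D hA b hb n hr0, Finset.mul_sum]
  rw [h5, integral_finsetSum _ fun k _ => hint k, Finset.sum_congr rfl fun k _ => hsc k,
    Finset.sum_mul]

/-- (7.2), second part: `In(A₁ ⊗ A₂, D₁ ⊗ A₂, n) = Tr A₂^α · In(A₁, D₁, n)` -/
theorem In_kron_right (α : ℝ) (A₁ D₁ : Matrix ι ι ℂ) (hA₁ : A₁.PosDef) (A₂ : Matrix κ κ ℂ)
    (hA₂ : A₂.PosDef) (n : ℕ) (h0 : 0 < α) (hα : α < n) :
    In α (A₁ ⊗ₖ A₂) (D₁ ⊗ₖ A₂) n = trF (fun x => x ^ α) A₂ * In α A₁ D₁ n := by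
  obtain ⟨U, b, hU, hU', hb, hA⟩ := exists_diag A₂ hA₂
  have h1 : trF (fun x => x ^ α) A₂ = ∑ k, b k ^ α := by
    rw [hA]
    exact TRF.trF_conj (fun x => x ^ α) hU b
  rw [h1]
  conv_lhs => rw [hA]
  rw [In_kron_conj α A₁ D₁ U (dg b) (dg b) hU hU' n]
  exact In_kron_dg α A₁ D₁ hA₁ b hb n h0 hα

end Pool.Agent.A1.LOG
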