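import Pool.Agent.Lib_helper16.A1.LogA
import Pool.Agent.Lib_helper16.A1.LogC

/-!
# Project A1, block LOG, part B: (7.2)
-/

open scoped BigOperators ComplexOrder Kronecker MatrixOrder Topology
open MeasureTheory Set Matrix Filter

namespace Pool.Agent.A1.LOG

open Pool.Agent.RC Pool.Agent.RC.SER Pool.Agent.RC.DEC

variable {ι κ : Type} [Fintype ι] [DecidableEq ι] [Fintype κ] [DecidableEq κ]

/-- `𝔊(ε)`, spelled out (equal by `rfl` to `GG` of the definitions file) -/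
noncomputable def Gr (R₁ D₁ : Matrix ι ι ℂ) (R₂ D₂ : Matrix κ κ ℂ) (e : ℝ) : ℝ :=
  2 * Real.log ((1 + (e : ℂ) • (R₁ ⊗ₖ R₂ + D₁ ⊗ₖ D₂)).det).re -
    Real.log ((1 + (e : ℂ) • ((R₁ + D₁) ⊗ₖ R₂)).det).re -
    Real.log ((1 + (e : ℂ) • ((R₁ - D₁) ⊗ₖ R₂)).det).re

theorem neg_kron (X : Matrix ι ι ℂ) (Y : Matrix κ κ ℂ) : (-X) ⊗ₖ Y = -(X ⊗ₖ Y) := by
  ext i j
  simp [Matrix.kroneckerMap_apply]

theorem add_kron (X X' : Matrix ι ι ℂ) (Y : Matrix κ κ ℂ) :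
    (X + X') ⊗ₖ Y = X ⊗ₖ Y + X' ⊗ₖ Y := by
  ext i j
  simp only [Matrix.kroneckerMap_apply, Matrix.add_apply, add_mul]

theorem sub_kron (X X' : Matrix ι ι ℂ) (Y : Matrix κ κ ℂ) :
    (X - X') ⊗ₖ Y = X ⊗ₖ Y - X' ⊗ₖ Y := by
  ext i j
  simp only [Matrix.kroneckerMap_apply, Matrix.sub_apply, sub_mul]

/-- the symmetrised `𝔊` through `LL` -/
theorem Gr_sym (R₁ D₁ : Matrix ι ι ℂ) (R₂ D₂ : Matrix κ κ ℂ) (e : ℝ) :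
    Gr R₁ D₁ R₂ D₂ e + Gr R₁ (-D₁) R₂ D₂ e =
      -2 * LL (R₁ ⊗ₖ R₂) (D₁ ⊗ₖ D₂) e + 2 * LL (R₁ ⊗ₖ R₂) (D₁ ⊗ₖ R₂) e := by
  unfold Gr LL
  rw [neg_kron, ← sub_eq_add_neg (R₁ ⊗ₖ R₂), ← sub_eq_add_neg R₁, sub_neg_eq_add R₁ D₁,
    add_kron, sub_kron]
  ring

theorem pair_self {R : Matrix κ κ ℂ} (h : R.PosDef) : IsPair R R where
  pos := h
  sub := by rw [sub_self]; exact Matrix.PosSemidef.zero
  add := h.posSemidef.add h.posSemidef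

/-- integrability of the symmetrised `𝔊` -/
theorem Gr_sym_integrable (α : ℝ) (h0 : 0 < α) (h2 : α < 2) (h1 : α ≠ 1)
    {R₁ D₁ : Matrix ι ι ℂ} {R₂ D₂ : Matrix κ κ ℂ} (hR₁ : IsPair R₁ D₁) (hR₂ : IsPair R₂ D₂) :
    IntegrableOn (fun e : ℝ => e ^ (-1 - α) * (Gr R₁ D₁ R₂ D₂ e + Gr R₁ (-D₁) R₂ D₂ e))
      (Ioi 0) := by
  have i1 := LL_integrable α h0 h2 h1 (hR₁.kron hR₂)
  have i2 := LL_integrable α h0 h2 h1 (hR₁.kron (pair_self hR₂.pos))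
  have i3 := (i1.const_mul (-2)).add (i2.const_mul 2)
  refine i3.congr (Eventually.of_forall fun e => ?_)
  simp only [Pi.add_apply]
  rw [Gr_sym]
  ring

/-- (7.2): the log det series -/
theorem Gr_sym_hasSum (α : ℝ) (h0 : 0 < α) (h2 : α < 2) (h1 : α ≠ 1)
    {R₁ D₁ : Matrix ι ι ℂ} {R₂ D₂ : Matrix κ κ ℂ} (hR₁ : IsPair R₁ D₁) (hR₂ : IsPair R₂ D₂) :
    HasSum (fun m : ℕ => (In α (R₁ ⊗ₖ R₂) (D₁ ⊗ₖ D₂) (2 * (m + 1)) -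
      trF (fun x => x ^ α) R₂ * In α R₁ D₁ (2 * (m + 1))) / (2 * ((m : ℝ) + 1)))
      (-(1 / 4) * ∫ e in Ioi (0 : ℝ),
        e ^ (-1 - α) * (Gr R₁ D₁ R₂ D₂ e + Gr R₁ (-D₁) R₂ D₂ e)) := by
  have i1 := LL_integrable α h0 h2 h1 (hR₁.kron hR₂)
  have i2 := LL_integrable α h0 h2 h1 (hR₁.kron (pair_self hR₂.pos))
  have s1 := LL_hasSum α h0 h2 h1 (hR₁.kron hR₂)
  have s2 := LL_hasSum α h0 h2 h1 (hR₁.kron (pair_self hR₂.pos))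
  have e1 : (-(1 / 4) * ∫ e in Ioi (0 : ℝ),
        e ^ (-1 - α) * (Gr R₁ D₁ R₂ D₂ e + Gr R₁ (-D₁) R₂ D₂ e)) =
      1 / 2 * (∫ e in Ioi (0 : ℝ), e ^ (-1 - α) * LL (R₁ ⊗ₖ R₂) (D₁ ⊗ₖ D₂) e) -
        1 / 2 * ∫ e in Ioi (0 : ℝ), e ^ (-1 - α) * LL (R₁ ⊗ₖ R₂) (D₁ ⊗ₖ R₂) e := by
    have e2 : (∫ e in Ioi (0 : ℝ), e ^ (-1 - α) * (Gr R₁ D₁ R₂ D₂ e + Gr R₁ (-D₁) R₂ D₂ e)) =
        ∫ e in Ioi (0 : ℝ), ((-2) * (e ^ (-1 - α) * LL (R₁ ⊗ₖ R₂) (D₁ ⊗ₖ D₂) e) +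
          2 * (e ^ (-1 - α) * LL (R₁ ⊗ₖ R₂) (D₁ ⊗ₖ R₂) e)) := by
      congr 1
      funext e
      rw [Gr_sym]
      ring
    rw [e2, integral_add (i1.const_mul (-2)) (i2.const_mul 2), integral_const_mul,
      integral_const_mul]
    ring
  rw [e1]
  refine ((s1.mul_left (1 / 2)).sub (s2.mul_left (1 / 2))).congr_fun ?_
  intro m
  have hα : α < ((2 * (m + 1) : ℕ) : ℝ) := by
    push_cast
    have : (0 : ℝ) ≤ m := Nat.cast_nonneg m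
    linarith
  rw [In_kron_right α R₁ D₁ hR₁.pos R₂ hR₂.pos (2 * (m + 1)) h0 hα]
  have : (m : ℝ) + 1 ≠ 0 := by positivity
  field_simp

end Pool.Agent.A1.LOG
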