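import Pool.Agent.Lib_helper16.A1.LogTen
import Pool.Agent.Lib_helper59.A1.Stmts

/-!
# Project A1: the blocks LOG and TEN
-/

open scoped BigOperators ComplexOrder Kronecker MatrixOrder Topology
open MeasureTheory Set Matrix Filter

namespace Pool.Agent.A1W

theorem log_stmt : LOGStmt := fun α h0 h2 h1 ν _ _ A D h => log_aux α h0 h2 h1 ν A D h

theorem ten_stmt : TENStmt :=
  ⟨fun α _ κ _ _ A₂ hA₂ => ⟨_, fun ι _ _ A₁ D₁ h m => ten_aux1 α κ A₂ hA₂ ι A₁ D₁ h m⟩,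
    fun ι κ _ _ _ _ R₁ D₁ R₂ D₂ e => ten_aux2 ι κ R₁ D₁ R₂ D₂ e⟩

end Pool.Agent.A1W
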