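import Pool.Agent.Lib_helper16.A1.LogB
import Pool.Agent.Lib_helper59.A1.Defs

/-!
# Project A1: the statements LOG and TEN, spelled out
-/

open scoped BigOperators ComplexOrder Kronecker MatrixOrder Topology
open MeasureTheory Set Matrix Filter

namespace Pool.Agent.A1W

open Pool.Agent.RC Pool.Agent.A1.LOG

variable {ι κ : Type} [Fintype ι] [DecidableEq ι] [Fintype κ] [DecidableEq κ]

theorem LD_eq_LL (A D : Matrix ι ι ℂ) (e : ℝ) : LD A D e = LL A D e := rfl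

/-- LOG -/
theorem log_aux (α : ℝ) (h0 : 0 < α) (h2 : α < 2) (h1 : α ≠ 1) (ν : Type) [Fintype ν]
    [DecidableEq ν] (A D : Matrix ν ν ℂ) (h : IsPair A D) :
    IntegrableOn (fun e : ℝ => e ^ (-1 - α) * LD A D e) (Ioi 0) ∧
      HasSum (fun m : ℕ => In α A D (2 * (m + 1)) / (2 * ((m : ℝ) + 1)))
        ((1 / 2) * ∫ e in Ioi (0 : ℝ), e ^ (-1 - α) * LD A D e) := by
  refine ⟨LL_integrable α h0 h2 h1 h, ?_⟩
  refine ((LL_hasSum α h0 h2 h1 h).mul_left (1 / 2)).congr_fun ?_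
  intro m
  have : (m : ℝ) + 1 ≠ 0 := by positivity
  field_simp

theorem integrableOn_scale_iff (α : ℝ) (f : ℝ → ℝ) {b : ℝ} (hb : 0 < b) :
    IntegrableOn (fun r : ℝ => r ^ (α - 1) * f (r / b)) (Ioi 0) ↔
      IntegrableOn (fun r : ℝ => r ^ (α - 1) * f r) (Ioi 0) := by
  have h3 := integrableOn_Ioi_comp_mul_left_iff (fun r : ℝ => r ^ (α - 1) * f (r / b)) 0 hb
  rw [mul_zero] at h3
  rw [← h3]
  have hb' : (b ^ (α - 1)) ≠ 0 := (Real.rpow_pos_of_pos hb _).ne'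
  have e1 : IntegrableOn (fun r : ℝ => (b * r) ^ (α - 1) * f (b * r / b)) (Ioi 0) ↔
      IntegrableOn (fun r : ℝ => b ^ (α - 1) * (r ^ (α - 1) * f r)) (Ioi 0) := by
    apply integrableOn_congr_fun _ measurableSet_Ioi
    intro u hu
    have hu0 : (0 : ℝ) < u := hu
    beta_reduce
    rw [mul_div_cancel_left₀ _ hb.ne', Real.mul_rpow hb.le hu0.le]
    ring
  rw [e1]
  constructor
  · intro h
    have := h.const_mul (b ^ (α - 1))⁻¹
    refine this.congr (Eventually.of_forall fun r => ?_)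
    beta_reduce
    rw [← mul_assoc, inv_mul_cancel₀ hb', one_mul]
  · intro h
    exact h.const_mul _

/-- the tensor formula without a condition on `n` -/
theorem In_kron_dg' (α : ℝ) (A D : Matrix ι ι ℂ) (h : IsPair A D) (b : κ → ℝ)
    (hb : ∀ k, 0 < b k) {n : ℕ} (hn : Even n) :
    In α (A ⊗ₖ dg b) (D ⊗ₖ dg b) n = (∑ k, b k ^ α) * In α A D n := by
  have h5 : In α (A ⊗ₖ dg b) (D ⊗ₖ dg b) n =
      ∫ r in Ioi (0 : ℝ), ∑ k, r ^ (α - 1) * tn A D n (r / b k) := by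
    unfold In
    apply setIntegral_congr_fun measurableSet_Ioi
    intro r hr
    have hr0 : (0 : ℝ) < r := hr
    beta_reduce
    rw [tn_kron_dg A D h.pos b hb n hr0, Finset.mul_sum]
  have hsc : ∀ k, ∫ r in Ioi (0 : ℝ), r ^ (α - 1) * tn A D n (r / b k) = b k ^ α * In α A D n := by
    intro k
    rw [integral_scale α (b k) (fun r => tn A D n (r / b k)) (hb k)]
    unfold In
    congr 1
    apply setIntegral_congr_fun measurableSet_Ioi
    intro t _
    show t ^ (α - 1) * tn A D n (b k * t / b k) = t ^ (α - 1) * tn A D n t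
    rw [mul_div_cancel_left₀ _ (hb k).ne']
  rw [h5]
  by_cases hi : IntegrableOn (fun r => r ^ (α - 1) * tn A D n r) (Ioi 0)
  · have hint : ∀ k, IntegrableOn (fun r => r ^ (α - 1) * tn A D n (r / b k)) (Ioi 0) :=
      fun k => (integrableOn_scale_iff α (tn A D n) (hb k)).2 hi
    rw [integral_finsetSum _ fun k _ => hint k, Finset.sum_congr rfl fun k _ => hsc k,
      Finset.sum_mul]
  · have h0 : In α A D n = 0 := integral_undef hi
    rw [h0, mul_zero]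
    rcases isEmpty_or_nonempty κ with hκ | ⟨⟨k₀⟩⟩
    · simp
    · apply integral_undef
      intro hS
      apply hi
      rw [← integrableOn_scale_iff α (tn A D n) (hb k₀)]
      refine Integrable.mono' hS ?_ ?_
      · apply ContinuousOn.aestronglyMeasurable _ measurableSet_Ioi
        apply ContinuousOn.mul
        · exact ContinuousOn.rpow_const continuousOn_id (fun r hr => Or.inl (ne_of_gt hr))
        · refine (DEC.continuousOn_tn h.pos n).comp (by fun_prop) ?_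
          intro r hr
          exact div_pos hr (hb k₀)
      · refine ae_restrict_of_forall_mem measurableSet_Ioi fun r hr => ?_
        have hr0 : (0 : ℝ) < r := hr
        have hnn : ∀ k, 0 ≤ r ^ (α - 1) * tn A D n (r / b k) := fun k =>
          mul_nonneg (by positivity) (DEC.tn_nonneg' h (div_pos hr0 (hb k)).le hn)
        rw [Real.norm_eq_abs, abs_of_nonneg (hnn k₀)]
        exact Finset.single_le_sum (f := fun k => r ^ (α - 1) * tn A D n (r / b k))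
          (fun k _ => hnn k) (Finset.mem_univ k₀)

/-- TEN, first part -/
theorem ten_aux1 (α : ℝ) (κ : Type) [Fintype κ] [DecidableEq κ] (A₂ : Matrix κ κ ℂ)
    (hA₂ : A₂.PosDef) (ι : Type) [Fintype ι] [DecidableEq ι] (A₁ D₁ : Matrix ι ι ℂ)
    (h : IsPair A₁ D₁) (m : ℕ) : In α (A₁ ⊗ₖ A₂) (D₁ ⊗ₖ A₂) (2 * (m + 1)) =
      trF (fun x => x ^ α) A₂ * In α A₁ D₁ (2 * (m + 1)) := by
  obtain ⟨U, b, hU, hU', hb, hA⟩ := exists_diag A₂ hA₂
  have h1 : trF (fun x => x ^ α) A₂ = ∑ k, b k ^ α := by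
    rw [hA]
    exact TRF.trF_conj (fun x => x ^ α) hU b
  rw [h1]
  conv_lhs => rw [hA]
  rw [In_kron_conj α A₁ D₁ U (dg b) (dg b) hU hU' _]
  exact In_kron_dg' α A₁ D₁ h b hb (even_two_mul _)

/-- TEN, second part -/
theorem ten_aux2 (ι κ : Type) [Fintype ι] [DecidableEq ι] [Fintype κ] [DecidableEq κ]
    (R₁ D₁ : Matrix ι ι ℂ) (R₂ D₂ : Matrix κ κ ℂ) (e : ℝ) :
    GG R₁ D₁ R₂ D₂ e + GG R₁ (-D₁) R₂ D₂ e =
      2 * LD (R₁ ⊗ₖ R₂) (D₁ ⊗ₖ R₂) e - 2 * LD (R₁ ⊗ₖ R₂) (D₁ ⊗ₖ D₂) e := by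
  have h1 := Gr_sym R₁ D₁ R₂ D₂ e
  have h2 : GG R₁ D₁ R₂ D₂ e = Gr R₁ D₁ R₂ D₂ e := rfl
  have h3 : GG R₁ (-D₁) R₂ D₂ e = Gr R₁ (-D₁) R₂ D₂ e := rfl
  rw [h2, h3, h1, LD_eq_LL, LD_eq_LL]
  ring

end Pool.Agent.A1W
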