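import Pool.Agent.Lib_helper16.A1.LogTen
import Pool.Agent.Lib_helper96.A1.Pos

/-!
# Project A1, block MEL, part A: the trace identity behind (7.3)
-/

open scoped BigOperators ComplexOrder Kronecker MatrixOrder Topology
open MeasureTheory Set Matrix Filter

namespace Pool.Agent.A1.MELA

open Pool.Agent.RC Pool.Agent.RC.SER Pool.Agent.RC.DEC Pool.Agent.A1

variable {ι κ : Type} [Fintype ι] [DecidableEq ι] [Fintype κ] [DecidableEq κ]

/-- `Tr D (A + c D + r)⁻¹` -/
noncomputable def rd (A D : Matrix ι ι ℂ) (c r : ℝ) : ℝ :=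
  ((D * Res (A + (c : ℂ) • D) r).trace).re

theorem rd_eq {A D : Matrix ι ι ℂ} (hA : A.PosDef) {r : ℝ} (hr : 0 ≤ r) {V W k : Matrix ι ι ℂ}
    {η : ι → ℝ} (h : NF A D r V W k η) (c : ℝ) (hc : ∀ i, 1 + c * η i ≠ 0) :
    rd A D c r = ∑ i, η i / (1 + c * η i) := by
  set Dg : Matrix ι ι ℂ := Matrix.diagonal (fun i => ((1 + c * η i : ℝ) : ℂ)) with hDg
  set Di : Matrix ι ι ℂ := Matrix.diagonal (fun i => (((1 + c * η i)⁻¹ : ℝ) : ℂ)) with hDi
  have hgi : Dg * Di = 1 := by
    rw [hDg, hDi, Matrix.diagonal_mul_diagonal, ← Matrix.diagonal_one]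
    congr 1
    funext i
    rw [← Complex.ofReal_mul, mul_inv_cancel₀ (hc i)]
    simp
  have e0 : Dg = 1 + (c : ℂ) • Matrix.diagonal (fun i => (η i : ℂ)) := by
    ext i j
    by_cases hij : i = j
    · subst hij; simp [hDg]
    · simp [hDg, hij]
  have e1 : Bm (A + (c : ℂ) • D) r = Bm A r * (V * Dg * W) := by
    have e3 : V * Dg * W = 1 + (c : ℂ) • (Res A r * D) := by
      rw [e0, h.hH, mul_add, add_mul, mul_one, h.vw, Matrix.mul_smul, Matrix.smul_mul]
    rw [e3, mul_add, mul_one, Matrix.mul_smul, ← mul_assoc, mul_res hA hr, one_mul]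
    unfold Bm
    abel
  have e2 : Res (A + (c : ℂ) • D) r = V * Di * W * Res A r := by
    unfold Res
    apply Matrix.inv_eq_right_inv
    change Bm (A + (c : ℂ) • D) r * (V * Di * W * Res A r) = 1
    rw [e1]
    calc Bm A r * (V * Dg * W) * (V * Di * W * Res A r)
        = Bm A r * V * Dg * (W * V) * Di * W * Res A r := by noncomm_ring
      _ = Bm A r * V * (Dg * Di) * W * Res A r := by rw [h.wv]; noncomm_ring
      _ = Bm A r * (V * W) * Res A r := by rw [hgi]; noncomm_ring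
      _ = 1 := by rw [h.vw, mul_one, mul_res hA hr]
  unfold rd
  have e4 : (D * Res (A + (c : ℂ) • D) r).trace =
      (Matrix.diagonal (fun i => (η i : ℂ)) * Di).trace := by
    rw [e2, Matrix.trace_mul_comm]
    have e5 : V * Di * W * Res A r * D = V * Di * W * (V * Matrix.diagonal (fun i => (η i : ℂ)) * W) := by
      rw [← h.hH]; noncomm_ring
    rw [e5]
    have e6 : V * Di * W * (V * Matrix.diagonal (fun i => (η i : ℂ)) * W) =
        V * (Di * Matrix.diagonal (fun i => (η i : ℂ))) * W := by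
      calc _ = V * Di * (W * V) * Matrix.diagonal (fun i => (η i : ℂ)) * W := by noncomm_ring
        _ = _ := by rw [h.wv]; noncomm_ring
    rw [e6, Matrix.trace_mul_comm, ← mul_assoc, h.wv, one_mul, Matrix.trace_mul_comm]
  rw [e4, hDi, Matrix.diagonal_mul_diagonal, Matrix.trace_diagonal, Complex.re_sum]
  refine Finset.sum_congr rfl fun i _ => ?_
  rw [← Complex.ofReal_mul, Complex.ofReal_re, div_eq_mul_inv]

theorem hasSum_geo {c η : ℝ} (hc : |c| ≤ 1) (hη : |η| < 1) :
    HasSum (fun m : ℕ => c ^ (2 * m + 1) * η ^ (2 * (m + 1)))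
      ((η / (1 + (-c) * η) - η / (1 + c * η)) / 2) := by
  have h1 : |c * η| < 1 := by
    rw [abs_mul]
    calc |c| * |η| ≤ 1 * |η| := by gcongr
      _ < 1 := by rw [one_mul]; exact hη
  have h2 := abs_lt.1 h1
  have hq : |(c * η) ^ 2| < 1 := by
    rw [abs_pow]
    exact pow_lt_one₀ (abs_nonneg _) h1 two_ne_zero
  have hg := (hasSum_geometric_of_abs_lt_one hq).mul_left (c * η ^ 2)
  have e1 : c * η ^ 2 * (1 - (c * η) ^ 2)⁻¹ = (η / (1 + (-c) * η) - η / (1 + c * η)) / 2 := by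
    have n1 : 1 - c * η ≠ 0 := by
      have : 0 < 1 - c * η := by linarith
      exact this.ne'
    have n2 : 1 + c * η ≠ 0 := by
      have : 0 < 1 + c * η := by linarith
      exact this.ne'
    have e2 : 1 - (c * η) ^ 2 = (1 - c * η) * (1 + c * η) := by ring
    have e3 : 1 + -c * η = 1 - c * η := by ring
    rw [e2, e3]
    field_simp
    ring
  rw [e1] at hg
  refine hg.congr_fun ?_
  intro m
  rw [← pow_mul, mul_pow]
  ring

theorem hasSum_rd {A D : Matrix ι ι ℂ} (h : IsPair A D) {r : ℝ} (hr : 0 < r) {c : ℝ}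
    (hc : |c| ≤ 1) : HasSum (fun m : ℕ => c ^ (2 * m + 1) * tn A D (2 * (m + 1)) r)
      ((rd A D (-c) r - rd A D c r) / 2) := by
  obtain ⟨V, W, k, η, hN⟩ := exists_NF h hr.le
  obtain ⟨c₀, hc₀, hcA⟩ := DEC.exists_bound h.pos
  have hη : ∀ i, |η i| < 1 := fun i => by
    refine lt_of_le_of_lt ((hN.le i).trans (hN.lc c₀ hcA hc₀ i)) ?_
    rw [div_lt_one (by positivity)]; linarith
  have hne : ∀ b : ℝ, |b| ≤ 1 → ∀ i, 1 + b * η i ≠ 0 := by
    intro b hb i
    have h1 : |b * η i| < 1 := by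
      rw [abs_mul]
      calc |b| * |η i| ≤ 1 * |η i| := by gcongr
        _ < 1 := by rw [one_mul]; exact hη i
    have h2 := abs_lt.1 h1
    have : 0 < 1 + b * η i := by linarith
    exact this.ne'
  have hc' : |-c| ≤ 1 := by rwa [abs_neg]
  rw [rd_eq h.pos hr.le hN c (hne c hc), rd_eq h.pos hr.le hN (-c) (hne (-c) hc'),
    ← Finset.sum_sub_distrib, Finset.sum_div]
  have hs := hasSum_sum (s := Finset.univ) fun i _ => hasSum_geo hc (hη i)
  refine hs.congr_fun ?_
  intro m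
  rw [trace_diag_pow hN, Finset.mul_sum]

end Pool.Agent.A1.MELA
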