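import Pool.Agent.Lib_helper16.A1.MelB

/-!
# Project A1, block MEL-a: the trace identity behind (7.3)
-/

open scoped BigOperators ComplexOrder Kronecker MatrixOrder Topology
open MeasureTheory Set Matrix Filter

namespace Pool.Agent.A1.MELA

open Pool.Agent.RC Pool.Agent.RC.SER Pool.Agent.RC.DEC Pool.Agent.A1 Pool.Agent.A1W

variable {ι κ : Type} [Fintype ι] [DecidableEq ι] [Fintype κ] [DecidableEq κ]

/-- `Tr D (A + c D + r)⁻¹` in an eigenbasis -/
theorem rd_diag {A D U : Matrix ι ι ℂ} {x : ι → ℝ} {c : ℝ} (hU : U * Uᴴ = 1) (hU' : Uᴴ * U = 1)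
    (hX : A + (c : ℂ) • D = U * dg x * Uᴴ) {r : ℝ} (hx : ∀ i, x i + r ≠ 0) :
    rd A D c r = ∑ i, ((Uᴴ * D * U) i i).re * (1 / (x i + r)) := by
  unfold rd
  have h1 : Res (A + (c : ℂ) • D) r = U * dg (fun k => (x k + r)⁻¹) * Uᴴ := by
    rw [hX]
    have h2 := res_conj U (dg x) hU' hU r
    rw [Matrix.star_eq_conjTranspose] at h2
    rw [h2, res_dg x r hx]
  have h3 : (D * Res (A + (c : ℂ) • D) r).trace =
      (Uᴴ * D * U * dg (fun k => (x k + r)⁻¹)).trace := by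
    rw [h1]
    calc (D * (U * dg (fun k => (x k + r)⁻¹) * Uᴴ)).trace
        = ((D * U * dg (fun k => (x k + r)⁻¹)) * Uᴴ).trace := by
          congr 1
          noncomm_ring
      _ = (Uᴴ * (D * U * dg (fun k => (x k + r)⁻¹))).trace := Matrix.trace_mul_comm _ _
      _ = _ := by
          congr 1
          noncomm_ring
  rw [h3]
  unfold dg Matrix.trace
  rw [Complex.re_sum]
  refine Finset.sum_congr rfl fun i _ => ?_
  rw [Matrix.diag_apply, Matrix.mul_diagonal, Complex.re_mul_ofReal, one_div]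

theorem trace_diag {D U : Matrix ι ι ℂ} (hU : U * Uᴴ = 1) :
    ∑ i, ((Uᴴ * D * U) i i).re = (D.trace).re := by
  have h1 : (Uᴴ * D * U).trace = D.trace := by
    rw [Matrix.trace_mul_comm, ← mul_assoc, hU, one_mul]
  rw [← h1]
  unfold Matrix.trace
  rw [Complex.re_sum]
  rfl

theorem eig_pos {X U : Matrix ι ι ℂ} {x : ι → ℝ} (hU : U * Uᴴ = 1) (hU' : Uᴴ * U = 1)
    (hX : X = U * dg x * Uᴴ) (hP : X.PosDef) (i : ι) : 0 < x i := by
  have hUu : IsUnit U := IsUnit.of_mul_eq_one _ hU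
  have h1 : (Uᴴ * X * U).PosDef :=
    hP.conjTranspose_mul_mul_same (B := U) (Matrix.mulVec_injective_of_isUnit hUu)
  have h2 : Uᴴ * X * U = dg x := by
    rw [hX]
    calc Uᴴ * (U * dg x * Uᴴ) * U = (Uᴴ * U) * dg x * (Uᴴ * U) := by noncomm_ring
      _ = dg x := by rw [hU', one_mul, mul_one]
  rw [h2] at h1
  unfold dg at h1
  rw [Matrix.posDef_diagonal_iff] at h1
  have h3 := h1 i
  exact_mod_cast h3

/-- the series for the difference of the two resolvent traces, integrated -/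
theorem hasSum_int_rd {α : ℝ} (h0 : 0 < α) (h2 : α < 2) {A D : Matrix ι ι ℂ} (h : SPair A D)
    {c : ℝ} (hc : |c| ≤ 1) :
    HasSum (fun m : ℕ => c ^ (2 * m + 1) * In α A D (2 * (m + 1)))
      (∫ r in Ioi (0 : ℝ), r ^ (α - 1) * ((rd A D (-c) r - rd A D c r) / 2)) := by
  have hP := spair_isPair h
  have hn : ∀ m : ℕ, α < ((2 * (m + 1) : ℕ) : ℝ) := by
    intro m
    push_cast
    have : (0 : ℝ) ≤ m := Nat.cast_nonneg m
    linarith
  set F : ℕ → ℝ → ℝ := fun m r => c ^ (2 * m + 1) * (r ^ (α - 1) * tn A D (2 * (m + 1)) r) with hF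
  have hFi : ∀ m, Integrable (F m) (volume.restrict (Ioi 0)) := fun m =>
    (RC.integrableOn_tn α A D h.posDef _ h0 (hn m)).const_mul _
  have hFn : ∀ m, ∫ r in Ioi (0 : ℝ), ‖F m r‖ = |c| ^ (2 * m + 1) * In α A D (2 * (m + 1)) := by
    intro m
    unfold In
    rw [← integral_const_mul]
    apply setIntegral_congr_fun measurableSet_Ioi
    intro r hr
    have hr0 : (0 : ℝ) < r := hr
    have h3 : 0 ≤ tn A D (2 * (m + 1)) r := tn_nonneg' hP hr0.le (even_two_mul _)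
    have h4 : 0 ≤ r ^ (α - 1) * tn A D (2 * (m + 1)) r := by positivity
    show ‖c ^ (2 * m + 1) * (r ^ (α - 1) * tn A D (2 * (m + 1)) r)‖ = _
    rw [norm_mul, Real.norm_of_nonneg h4, norm_pow, Real.norm_eq_abs]
  have hInn : ∀ m : ℕ, 0 ≤ In α A D (2 * (m + 1)) := by
    intro m
    unfold In
    apply setIntegral_nonneg measurableSet_Ioi
    intro r hr
    have hr0 : (0 : ℝ) < r := hr
    have : 0 ≤ tn A D (2 * (m + 1)) r := tn_nonneg' hP hr0.le (even_two_mul _)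
    positivity
  have hsum : Summable fun m => ∫ r in Ioi (0 : ℝ), ‖F m r‖ := by
    simp only [hFn]
    refine Summable.of_nonneg_of_le (fun m => ?_) (fun m => ?_) (summable_In h0 h2 h)
    · have := hInn m
      positivity
    · have h3 : |c| ^ (2 * m + 1) ≤ 1 := pow_le_one₀ (abs_nonneg _) hc
      calc |c| ^ (2 * m + 1) * In α A D (2 * (m + 1)) ≤ 1 * In α A D (2 * (m + 1)) := by
            have := hInn m
            gcongr
        _ = _ := one_mul _
  have key := hasSum_integral_of_summable_integral_norm hFi hsum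
  have e1 : ∫ r in Ioi (0 : ℝ), ∑' m, F m r =
      ∫ r in Ioi (0 : ℝ), r ^ (α - 1) * ((rd A D (-c) r - rd A D c r) / 2) := by
    apply setIntegral_congr_fun measurableSet_Ioi
    intro r hr
    have hr0 : (0 : ℝ) < r := hr
    have h5 := (hasSum_rd hP hr0 hc).mul_left (r ^ (α - 1))
    beta_reduce
    rw [← h5.tsum_eq]
    apply tsum_congr
    intro m
    simp only [hF]
    ring
  rw [e1] at key
  refine key.congr_fun ?_
  intro m
  unfold In
  rw [← integral_const_mul]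

/-- MEL-a -/
theorem mel_a {α : ℝ} (h0 : 0 < α) (h2 : α < 2) (h1 : α ≠ 1) :
    ∃ k : ℝ, ∀ (ι : Type) [Fintype ι] [DecidableEq ι] (A D : Matrix ι ι ℂ), SPair A D →
      Summable (fun m : ℕ => In α A D (2 * (m + 1))) ∧
      ∀ c ∈ Icc (-1 : ℝ) 1, ∀ (U V : Matrix ι ι ℂ) (x y : ι → ℝ),
        U * Uᴴ = 1 → Uᴴ * U = 1 → V * Vᴴ = 1 → Vᴴ * V = 1 →
        Xc A D c = U * dg x * Uᴴ → Xc A (-D) c = V * dg y * Vᴴ →
        ∑ i, ((Uᴴ * D * U) i i).re * x i ^ (α - 1) - ∑ i, ((Vᴴ * D * V) i i).re * y i ^ (α - 1) =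
          k * hh α A D c := by
  obtain ⟨k, ε, hk⟩ := exists_pow h0 h2 h1
  refine ⟨-2 * k, fun ι _ _ A D h => ⟨summable_In h0 h2 h, ?_⟩⟩
  intro c hc U V x y hU hU' hV hV' hX hY
  have hcm : -c ∈ Icc (-1 : ℝ) 1 := ⟨by linarith [hc.2], by linarith [hc.1]⟩
  have hY2 : Xc A D (-c) = V * dg y * Vᴴ := by
    rw [← hY]
    unfold Xc
    push_cast
    rw [smul_neg, neg_smul]
  have hx : ∀ i, 0 < x i := eig_pos hU hU' hX (Xc_posDef h hc)
  have hy : ∀ i, 0 < y i := eig_pos hV hV' hY2 (Xc_posDef h hcm)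
  have hc1 : |c| ≤ 1 := abs_le.2 ⟨hc.1, hc.2⟩
  have e1 : ∀ (z : ι → ℝ) (b : ι → ℝ), (∀ i, 0 < z i) → ∑ i, b i * z i ^ (α - 1) =
      k * ∫ r in Ioi (0 : ℝ), ∑ i, b i * (r ^ (α - 1) * (1 / (z i + r) - ε / r)) := by
    intro z b hz
    rw [integral_finsetSum _ fun i _ => (hk (z i) (hz i)).1.const_mul (b i), Finset.mul_sum]
    refine Finset.sum_congr rfl fun i _ => ?_
    rw [integral_const_mul]
    conv_lhs => rw [(hk (z i) (hz i)).2]
    ring
  have ii : ∀ (z : ι → ℝ) (b : ι → ℝ), (∀ i, 0 < z i) →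
      IntegrableOn (fun r : ℝ => ∑ i, b i * (r ^ (α - 1) * (1 / (z i + r) - ε / r))) (Ioi 0) :=
    fun z b hz => integrable_finsetSum _ fun i _ => (hk (z i) (hz i)).1.const_mul (b i)
  rw [e1 x _ hx, e1 y _ hy, ← mul_sub, ← integral_sub (ii x _ hx) (ii y _ hy)]
  have e2 : ∫ r in Ioi (0 : ℝ), (∑ i, ((Uᴴ * D * U) i i).re *
        (r ^ (α - 1) * (1 / (x i + r) - ε / r)) -
      ∑ i, ((Vᴴ * D * V) i i).re * (r ^ (α - 1) * (1 / (y i + r) - ε / r))) =
      -2 * ∫ r in Ioi (0 : ℝ), r ^ (α - 1) * ((rd A D (-c) r - rd A D c r) / 2) := by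
    rw [← integral_const_mul]
    apply setIntegral_congr_fun measurableSet_Ioi
    intro r hr
    have hr0 : (0 : ℝ) < r := hr
    beta_reduce
    rw [rd_diag hU hU' hX (fun i => (add_pos (hx i) hr0).ne'),
      rd_diag (c := -c) hV hV' hY2 (fun i => (add_pos (hy i) hr0).ne')]
    have t1 := trace_diag (D := D) hU
    have t2 := trace_diag (D := D) hV
    have s : ∀ (z b : ι → ℝ), ∑ i, b i * (r ^ (α - 1) * (1 / (z i + r) - ε / r)) =
        r ^ (α - 1) * ∑ i, b i * (1 / (z i + r)) - r ^ (α - 1) * (ε / r) * ∑ i, b i := by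
      intro z b
      rw [Finset.mul_sum, Finset.mul_sum, ← Finset.sum_sub_distrib]
      refine Finset.sum_congr rfl fun i _ => ?_
      ring
    rw [s, s, t1, t2]
    ring
  rw [e2, ← (hasSum_int_rd h0 h2 h hc1).tsum_eq]
  unfold hh
  ring

end Pool.Agent.A1.MELA
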