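import Pool.Agent.Lib_helper16.A1.MelA

/-!
# Project A1, block MEL-a: summability and the power identity
-/

open scoped BigOperators ComplexOrder Kronecker MatrixOrder Topology
open MeasureTheory Set Matrix Filter

namespace Pool.Agent.A1.MELA

open Pool.Agent.RC Pool.Agent.RC.SER Pool.Agent.RC.DEC Pool.Agent.A1

variable {ι κ : Type} [Fintype ι] [DecidableEq ι] [Fintype κ] [DecidableEq κ]

theorem spair_isPair {A D : Matrix ι ι ℂ} (h : SPair A D) : IsPair A D where
  pos := h.posDef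
  sub := h.sub.posSemidef
  add := h.add.posSemidef

theorem exists_lower {P : Matrix ι ι ℂ} (hP : P.PosDef) :
    ∃ δ : ℝ, 0 < δ ∧ (P - δ • (1 : Matrix ι ι ℂ)).PosSemidef := by
  obtain ⟨c, hc, h⟩ := DEC.exists_bound hP.inv
  refine ⟨c⁻¹, inv_pos.2 hc, ?_⟩
  -- `P⁻¹ ≤ c` gives `P ≥ c⁻¹`
  obtain ⟨U, a, hU, hU', ha, hA⟩ := RC.exists_diag P hP
  have hinv : P⁻¹ = U * dg (fun i => (a i)⁻¹) * star U := by
    apply Matrix.inv_eq_right_inv
    rw [hA]
    calc U * dg a * star U * (U * dg (fun i => (a i)⁻¹) * star U)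
        = U * dg a * (star U * U) * dg (fun i => (a i)⁻¹) * star U := by noncomm_ring
      _ = U * (dg a * dg (fun i => (a i)⁻¹)) * star U := by rw [hU]; noncomm_ring
      _ = 1 := by
        rw [dg_mul_dg]
        have : (fun k => a k * (a k)⁻¹) = fun _ : ι => (1 : ℝ) := by
          funext k
          exact mul_inv_cancel₀ (ha k).ne'
        rw [this, dg_one, mul_one, hU']
  have hle : ∀ i, c⁻¹ ≤ a i := by
    intro i
    have h1 : (star U * (c • (1 : Matrix ι ι ℂ) - P⁻¹) * U).PosSemidef :=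
      h.conjTranspose_mul_mul_same U
    have h2 : star U * (c • (1 : Matrix ι ι ℂ) - P⁻¹) * U = dg (fun i => c - (a i)⁻¹) := by
      rw [hinv]
      calc star U * (c • (1 : Matrix ι ι ℂ) - U * dg (fun i => (a i)⁻¹) * star U) * U
          = c • (star U * U) - (star U * U) * dg (fun i => (a i)⁻¹) * (star U * U) := by
            rw [Matrix.mul_sub, Matrix.sub_mul, Matrix.mul_smul, Matrix.smul_mul, mul_one]
            congr 1
            noncomm_ring
        _ = c • (1 : Matrix ι ι ℂ) - dg (fun i => (a i)⁻¹) := by rw [hU, one_mul, mul_one]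
        _ = _ := by
          ext j k
          unfold dg
          by_cases hjk : j = k
          · subst hjk; simp
          · simp [hjk]
    rw [h2] at h1
    have h3 := h1.diag_nonneg (i := i)
    have h4 : (0 : ℝ) ≤ c - (a i)⁻¹ := by
      have := (Complex.le_def.1 h3).1
      simpa [dg] using this
    have h5 : (a i)⁻¹ ≤ c := by linarith
    rw [← inv_inv (a i)]
    exact inv_anti₀ (inv_pos.2 (ha i)) h5
  have e : P - c⁻¹ • (1 : Matrix ι ι ℂ) = U * dg (fun i => a i - c⁻¹) * Uᴴ := by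
    have e1 : dg (fun i => a i - c⁻¹) = dg a - c⁻¹ • (1 : Matrix ι ι ℂ) := by
      ext j k
      unfold dg
      by_cases hjk : j = k
      · subst hjk; simp
      · simp [hjk]
    rw [e1, Matrix.mul_sub, Matrix.sub_mul, Matrix.mul_smul, mul_one, Matrix.smul_mul]
    conv_lhs => rw [hA]
    rw [Matrix.star_eq_conjTranspose] at *
    rw [hU']
  rw [e]
  apply Matrix.PosSemidef.mul_mul_conjTranspose_same
  unfold dg
  rw [Matrix.posSemidef_diagonal_iff]
  intro i
  have : (0 : ℝ) ≤ a i - c⁻¹ := by linarith [hle i]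
  exact_mod_cast this

/-- a strict pair stays a pair after a dilation of `D` -/
theorem exists_rho {A D : Matrix ι ι ℂ} (h : SPair A D) :
    ∃ ρ : ℝ, 0 < ρ ∧ ρ < 1 ∧ IsPair A ((ρ⁻¹ : ℂ) • D) := by
  obtain ⟨δ₁, hδ₁, h1⟩ := exists_lower h.sub
  obtain ⟨δ₂, hδ₂, h2⟩ := exists_lower h.add
  obtain ⟨c, hc, hcA⟩ := DEC.exists_bound h.posDef
  set δ := min (min δ₁ δ₂) (c / 2) with hδ
  have hδ0 : 0 < δ := by
    rw [hδ]
    exact lt_min (lt_min hδ₁ hδ₂) (by positivity)
  have hδ1 : δ ≤ δ₁ := (min_le_left _ _).trans (min_le_left _ _)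
  have hδ2 : δ ≤ δ₂ := (min_le_left _ _).trans (min_le_right _ _)
  have hδc : δ ≤ c / 2 := min_le_right _ _
  set ρ := 1 - δ / c with hρ
  have hρ1 : ρ < 1 := by
    have : 0 < δ / c := by positivity
    linarith
  have hρ0 : 0 < ρ := by
    have : δ / c ≤ 1 / 2 := by
      rw [div_le_iff₀ hc]; linarith
    linarith
  have one_psd : ∀ t : ℝ, 0 ≤ t → (t • (1 : Matrix ι ι ℂ)).PosSemidef := fun t ht =>
    Matrix.PosSemidef.one.smul ht
  have key : ∀ {E : Matrix ι ι ℂ} {δ' : ℝ}, δ ≤ δ' →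
      (A + E - δ' • (1 : Matrix ι ι ℂ)).PosSemidef → (ρ • A + E).PosSemidef := by
    intro E δ' hle hE
    have e1 : ρ • A + E = (A + E - δ' • (1 : Matrix ι ι ℂ)) +
        (δ / c) • (c • (1 : Matrix ι ι ℂ) - A) + (δ' - δ) • (1 : Matrix ι ι ℂ) := by
      rw [hρ, smul_sub, smul_smul, div_mul_cancel₀ _ hc.ne', sub_smul, sub_smul, one_smul]
      abel
    rw [e1]
    exact (hE.add (hcA.smul (by positivity : (0 : ℝ) ≤ δ / c))).add
      (one_psd _ (by linarith))
  have hinv : (0 : ℝ) ≤ ρ⁻¹ := (inv_pos.2 hρ0).le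
  have hsm : ((ρ⁻¹ : ℝ) : ℂ) = (ρ⁻¹ : ℂ) := by push_cast; rfl
  refine ⟨ρ, hρ0, hρ1, ⟨h.posDef, ?_, ?_⟩⟩
  · have h3 : (ρ • A + -D).PosSemidef := key hδ1 (by
      have : A + -D - δ₁ • (1 : Matrix ι ι ℂ) = A - D - δ₁ • (1 : Matrix ι ι ℂ) := by abel
      rw [this]; exact h1)
    have h4 := h3.smul hinv
    have e : ρ⁻¹ • (ρ • A + -D) = A - (ρ⁻¹ : ℂ) • D := by
      rw [smul_add, smul_smul, inv_mul_cancel₀ hρ0.ne', one_smul, smul_neg, ← hsm,
        Complex.coe_smul]
      abel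
    rwa [e] at h4
  · have h3 : (ρ • A + D).PosSemidef := key hδ2 h2
    have h4 := h3.smul hinv
    have e : ρ⁻¹ • (ρ • A + D) = A + (ρ⁻¹ : ℂ) • D := by
      rw [smul_add, smul_smul, inv_mul_cancel₀ hρ0.ne', one_smul, ← hsm,
        Complex.coe_smul]
    rwa [e] at h4

theorem tn_smul' (A D : Matrix ι ι ℂ) (t : ℝ) (n : ℕ) (r : ℝ) :
    tn A ((t : ℂ) • D) n r = t ^ n * tn A D n r := by
  unfold tn
  rw [Matrix.mul_smul, smul_pow, Matrix.trace_smul, smul_eq_mul, ← Complex.ofReal_pow,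
    Complex.re_ofReal_mul]

/-- `∑ In` converges for a strict pair -/
theorem summable_In {α : ℝ} (h0 : 0 < α) (h2 : α < 2) {A D : Matrix ι ι ℂ} (h : SPair A D) :
    Summable (fun m : ℕ => In α A D (2 * (m + 1))) := by
  obtain ⟨ρ, hρ0, hρ1, hP⟩ := exists_rho h
  obtain ⟨c, hc, hcA⟩ := DEC.exists_bound h.posDef
  set K : ℝ := ∫ r in Ioi (0 : ℝ), r ^ (α - 1) * (Fintype.card ι * (c / (c + r)) ^ 2) with hK
  have hint : IntegrableOn (fun r : ℝ => r ^ (α - 1) * (Fintype.card ι * (c / (c + r)) ^ 2))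
      (Ioi 0) := by
    have h3 := (integrableOn_scalar α c 2 h0 (by exact_mod_cast h2) hc).const_mul
      (Fintype.card ι * c ^ 2)
    refine IntegrableOn.congr_fun h3 ?_ measurableSet_Ioi
    intro r hr
    have hr0 : (0 : ℝ) < r := hr
    beta_reduce
    rw [div_pow]
    field_simp
  have hbound : ∀ m : ℕ, In α A D (2 * (m + 1)) ≤ (ρ ^ 2) ^ m * K := by
    intro m
    have hn : α < ((2 * (m + 1) : ℕ) : ℝ) := by
      push_cast
      have : (0 : ℝ) ≤ m := Nat.cast_nonneg m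
      linarith
    rw [hK, ← integral_const_mul]
    unfold In
    apply setIntegral_mono_on (RC.integrableOn_tn α A D h.posDef _ h0 hn) (hint.const_mul _)
      measurableSet_Ioi
    intro r hr
    have hr0 : (0 : ℝ) < r := hr
    have h4 : tn A D (2 * (m + 1)) r = ρ ^ (2 * (m + 1)) * tn A ((ρ⁻¹ : ℂ) • D) (2 * (m + 1)) r := by
      have := tn_smul' A ((ρ⁻¹ : ℂ) • D) ρ (2 * (m + 1)) r
      rw [← this, smul_smul, mul_inv_cancel₀ (by exact_mod_cast hρ0.ne'), one_smul]
    have h5 := (le_abs_self _).trans (tn_bound hP hc hcA hr0.le (2 * (m + 1)))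
    have hq0 : 0 ≤ c / (c + r) := by positivity
    have hq1 : c / (c + r) ≤ 1 := by
      rw [div_le_one (by positivity)]; linarith
    have h6 : (c / (c + r)) ^ (2 * (m + 1)) ≤ (c / (c + r)) ^ 2 :=
      pow_le_pow_of_le_one hq0 hq1 (by omega)
    have h7 : ρ ^ (2 * (m + 1)) ≤ (ρ ^ 2) ^ m := by
      rw [← pow_mul]
      exact pow_le_pow_of_le_one hρ0.le hρ1.le (by omega)
    have h8 : tn A D (2 * (m + 1)) r ≤ (ρ ^ 2) ^ m * (Fintype.card ι * (c / (c + r)) ^ 2) := by
      rw [h4]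
      have h9 : tn A ((ρ⁻¹ : ℂ) • D) (2 * (m + 1)) r ≤ Fintype.card ι * (c / (c + r)) ^ 2 :=
        h5.trans (by gcongr)
      calc ρ ^ (2 * (m + 1)) * tn A ((ρ⁻¹ : ℂ) • D) (2 * (m + 1)) r
          ≤ ρ ^ (2 * (m + 1)) * (Fintype.card ι * (c / (c + r)) ^ 2) := by gcongr
        _ ≤ _ := by gcongr
    calc r ^ (α - 1) * tn A D (2 * (m + 1)) r
        ≤ r ^ (α - 1) * ((ρ ^ 2) ^ m * (Fintype.card ι * (c / (c + r)) ^ 2)) := by gcongr
      _ = _ := by ring
  have hnn : ∀ m : ℕ, 0 ≤ In α A D (2 * (m + 1)) := by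
    intro m
    unfold In
    apply setIntegral_nonneg measurableSet_Ioi
    intro r hr
    have hr0 : (0 : ℝ) < r := hr
    have : 0 ≤ tn A D (2 * (m + 1)) r := tn_nonneg' (spair_isPair h) hr0.le (even_two_mul _)
    positivity
  refine Summable.of_nonneg_of_le hnn hbound ?_
  apply Summable.mul_right
  apply summable_geometric_of_lt_one (by positivity)
  exact pow_lt_one₀ hρ0.le hρ1 two_ne_zero

/-- the scalar integral of the power `x ^ (α - 1)` -/
theorem exists_pow {α : ℝ} (h0 : 0 < α) (h2 : α < 2) (h1 : α ≠ 1) :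
    ∃ k ε : ℝ, ∀ x : ℝ, 0 < x →
      IntegrableOn (fun r : ℝ => r ^ (α - 1) * (1 / (x + r) - ε / r)) (Ioi 0) ∧
      x ^ (α - 1) = k * ∫ r in Ioi (0 : ℝ), r ^ (α - 1) * (1 / (x + r) - ε / r) := by
  have scale : ∀ (ε : ℝ) (x : ℝ), 0 < x →
      ∫ r in Ioi (0 : ℝ), r ^ (α - 1) * (1 / (x + r) - ε / r) =
        x ^ (α - 1) * ∫ r in Ioi (0 : ℝ), r ^ (α - 1) * (1 / (1 + r) - ε / r) := by
    intro ε x hx
    rw [integral_scale α x (fun r => 1 / (x + r) - ε / r) hx, ← integral_const_mul,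
      ← integral_const_mul]
    apply setIntegral_congr_fun measurableSet_Ioi
    intro t ht
    have ht0 : (0 : ℝ) < t := ht
    beta_reduce
    have e : x ^ α = x ^ (α - 1) * x := by
      rw [← Real.rpow_add_one hx.ne']
      congr 1
      ring
    rw [e]
    field_simp
  rcases lt_or_gt_of_ne h1 with h1 | h1
  · have hb := bet_pos α 1 h0 (by exact_mod_cast h1)
    have hbe : ∫ r in Ioi (0 : ℝ), r ^ (α - 1) * (1 / (1 + r) - 0 / r) = bet α 1 := by
      unfold bet
      congr 1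
      funext r
      rw [pow_one, zero_div, sub_zero, one_div]
    refine ⟨(bet α 1)⁻¹, 0, fun x hx => ⟨?_, ?_⟩⟩
    · have := integrableOn_scalar α x 1 h0 (by exact_mod_cast h1) hx
      refine this.congr_fun ?_ measurableSet_Ioi
      intro r _
      beta_reduce
      rw [pow_one, zero_div, sub_zero, one_div]
    · rw [scale 0 x hx, hbe]
      field_simp
  · have hα' : 0 < α - 1 := by linarith
    have hα1 : α - 1 < ((1 : ℕ) : ℝ) := by push_cast; linarith
    have hb := bet_pos (α - 1) 1 hα' hα1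
    have hpt : ∀ x : ℝ, 0 < x → ∀ r : ℝ, 0 < r → r ^ (α - 1) * (1 / (x + r) - 1 / r) =
        (-x) * (r ^ (α - 1 - 1) * ((x + r) ^ 1)⁻¹) := by
      intro x hx r hr
      have e : r ^ (α - 1) = r ^ (α - 1 - 1) * r := by
        rw [← Real.rpow_add_one hr.ne']
        congr 1
        ring
      rw [e]
      field_simp
      ring
    have hbe : ∫ r in Ioi (0 : ℝ), r ^ (α - 1) * (1 / (1 + r) - 1 / r) = -bet (α - 1) 1 := by
      unfold bet
      rw [← integral_neg]
      apply setIntegral_congr_fun measurableSet_Ioi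
      intro r hr
      beta_reduce
      rw [hpt 1 one_pos r hr]
      ring
    refine ⟨-(bet (α - 1) 1)⁻¹, 1, fun x hx => ⟨?_, ?_⟩⟩
    · have := (integrableOn_scalar (α - 1) x 1 hα' hα1 hx).const_mul (-x)
      refine IntegrableOn.congr_fun this ?_ measurableSet_Ioi
      intro r hr
      beta_reduce
      rw [hpt x hx r hr]
    · rw [scale 1 x hx, hbe]
      field_simp

end Pool.Agent.A1.MELA
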